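import Pool.Agent.H815.QC.Stm

/-! # QC, B7: subgroups of right-angled Artin groups are torsion-free -/

set_option autoImplicit false

namespace Pool.Agent.H828.QC

open Pool.Agent.Y110.FJ Pool.Agent.T2H65.GP Pool.Agent.H815.QC

theorem tf_int : TF (Multiplicative ℤ) := by
  intro g hg
  obtain ⟨n, hn, hgn⟩ := isOfFinOrder_iff_pow_eq_one.1 hg
  have h1 : (n : ℤ) * Multiplicative.toAdd g = 0 := by
    have h2 := congrArg Multiplicative.toAdd hgn
    rw [toAdd_pow, toAdd_one, nsmul_eq_mul] at h2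
    exact h2
  have hn0 : (n : ℤ) ≠ 0 := by exact_mod_cast hn.ne'
  exact toAdd_eq_zero.1 ((mul_eq_zero.1 h1).resolve_left hn0)

theorem B7_proof : Pool.Agent.H815.QC.S_B7 := by
  intro V _ Λ N _ β hβ n hn k hk hnk
  have h := tf (Nat.card V) V Λ (B2 V) le_rfl (fun _ => tf_int)
  have h1 : IsOfFinOrder (β n) := isOfFinOrder_iff_pow_eq_one.2 ⟨k, hk, by
    rw [← map_pow, hnk, map_one]⟩
  apply hn
  apply hβ
  rw [map_one]
  exact h (β n) h1

end Pool.Agent.H828.QC
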